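import Pool.Agent.helper57.MS.Spec

/-!
# Row ms:INS
-/

set_option autoImplicit false

open Finset

namespace Pool.Agent.helper57.MS

open Pool.Agent.RRank Pool.Agent.helper26.IM

section

variable (𝓅 : Ultrafilter ℕ) (K : ℕ → Type) [∀ n, Field (K n)] {Ω : Type}
  (Q : ℕ → Ω → Type)

theorem INS_mul (S : Finset Ω) (f g : ((ω : Ω) → (n : ℕ) → Q n ω) → UF 𝓅 K)
    (hf : Int 𝓅 K Q S f) (hg : Int 𝓅 K Q S g) : Int 𝓅 K Q S (f * g) := by
  obtain ⟨φ, h1, h2⟩ := hf
  obtain ⟨ψ, h3, h4⟩ := hg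
  refine ⟨fun n x => φ n x * ψ n x, fun n x y hxy => ?_, fun x => ?_⟩
  · show φ n x * ψ n x = φ n y * ψ n y
    rw [h1 n hxy, h3 n hxy]
  · show f x * g x = _
    rw [h2, h4, ← map_mul]
    rfl

theorem INS_add (S : Finset Ω) (f g : ((ω : Ω) → (n : ℕ) → Q n ω) → UF 𝓅 K)
    (hf : Int 𝓅 K Q S f) (hg : Int 𝓅 K Q S g) : Int 𝓅 K Q S (f + g) := by
  obtain ⟨φ, h1, h2⟩ := hf
  obtain ⟨ψ, h3, h4⟩ := hg
  refine ⟨fun n x => φ n x + ψ n x, fun n x y hxy => ?_, fun x => ?_⟩
  · show φ n x + ψ n x = φ n y + ψ n y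
    rw [h1 n hxy, h3 n hxy]
  · show f x + g x = _
    rw [h2, h4, ← map_add]
    rfl

theorem INS_const (S : Finset Ω) (c : UF 𝓅 K) :
    Int 𝓅 K Q S (fun _ : (ω : Ω) → (n : ℕ) → Q n ω => c) := by
  obtain ⟨γ, hγ⟩ := UF.mk_surjective 𝓅 c
  refine ⟨fun n _ => γ n, fun n x y _ => rfl, fun x => ?_⟩
  exact hγ.symm

theorem INS_ev [DecidableEq Ω] (S : Finset Ω) (f : ((ω : Ω) → (n : ℕ) → Q n ω) → UF 𝓅 K)
    (hf : Int 𝓅 K Q S f) (w : Ω) (q : (n : ℕ) → Q n w) :
    Int 𝓅 K Q (S.erase w) (ev w q f) := by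
  obtain ⟨φ, h1, h2⟩ := hf
  refine ⟨fun n x => φ n (Function.update x w (q n)), fun n x y hxy => ?_, fun x => ?_⟩
  · refine h1 n ?_
    intro i hi
    by_cases hiw : i = w
    · subst hiw
      simp
    · rw [Function.update_of_ne hiw, Function.update_of_ne hiw]
      refine hxy i ?_
      simp only [Finset.coe_erase, Set.mem_sdiff, Set.mem_singleton_iff]
      exact ⟨hi, hiw⟩
  · show f (Function.update x w q) = _
    rw [h2]
    have h5 : (fun n => φ n (fun ω => (Function.update x w q) ω n)) =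
        (fun n => φ n (Function.update (fun ω => x ω n) w (q n))) := by
      funext n
      have h6 : (fun ω => (Function.update x w q) ω n) =
          Function.update (fun ω => x ω n) w (q n) := by
        funext ω
        by_cases h7 : ω = w
        · subst h7
          simp
        · rw [Function.update_of_ne h7, Function.update_of_ne h7]
      rw [h6]
    rw [h5]

end

theorem INS : INS_stmt := by
  intro 𝓅 K _ Ω _ Q
  refine ⟨{
    E := fun S =>
      { carrier := {f | Int 𝓅 K Q S f}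
        mul_mem' := fun {f g} hf hg => INS_mul 𝓅 K Q S f g hf hg
        add_mem' := fun {f g} hf hg => INS_add 𝓅 K Q S f g hf hg
        algebraMap_mem' := fun c => INS_const 𝓅 K Q S c }
    mono := ?_
    dep := ?_
    ev_mem := ?_ }, ?_⟩
  · rintro S S' hS f ⟨φ, h1, h2⟩
    exact ⟨φ, fun n x y hxy => h1 n (fun i hi => hxy i (hS hi)), h2⟩
  · rintro S f ⟨φ, h1, h2⟩ x y hxy
    rw [h2, h2]
    have h3 : (fun n => φ n (fun ω => x ω n)) = (fun n => φ n (fun ω => y ω n)) := by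
      funext n
      refine h1 n ?_
      intro i hi
      show x i n = y i n
      rw [hxy i hi]
    rw [h3]
  · intro S f hf w q
    exact INS_ev 𝓅 K Q S f hf w q
  · intro S f
    exact Iff.rfl

end Pool.Agent.helper57.MS
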